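import Pool.Agent.H.MP_53e59f_lc.SN.Bin

/-!
# An estimate of the Domb numbers

Let `w j = t.choose j / 2 ^ t`, `b j = centralBinom j / 4 ^ j`, so the left side is `∑ j, (w j)^2 * b j * b (t - j)`.
(1) `(w j)^2 ≤ 1 / t`: `t.choose j ≤ t.choose (t / 2)`; for `t = 2 m` this is `centralBinom m`, for `t = 2 m + 1` it is
`centralBinom (m + 1) / 2`; then `central_le`, so `w j ≤ 1 / √t`.
(2) `(b j)^2 * (b (t - j))^2 ≤ 1 / ((j + 1) * (t - j + 1))` by `central_le` (`3 j + 1 ≥ j + 1`).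
(3) `∑ j, t.choose j / ((j + 1) * (t - j + 1)) = (2 ^ (t + 2) - 2) / ((t + 1) * (t + 2)) ≤ 4 * 2 ^ t / t ^ 2`, because
`t.choose j / ((j + 1) (t - j + 1)) = (t + 2).choose (j + 1) / ((t + 1) (t + 2))`.
(4) `x ≤ (l * x^2 + 1 / l) / 2` for `x = b j * b (t - j)`, `l = t / 2`: `∑ j, w j * b j * b (t - j) ≤ (l * (4 / t^2) + 1 / l) / 2 = 2 / t`
(with `∑ j, w j = 1`).
(5) Together `∑ j, (w j)^2 * b j * b (t - j) ≤ (1 / √t) * (2 / t)`.
-/

namespace Pool.Agent.SQ

open Pool.Agent.SN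

theorem Dom_choose (t j : ℕ) : t * (t.choose j) ^ 2 ≤ 4 ^ t := by
  have h1 := Nat.choose_le_middle j t
  obtain ⟨m, rfl | rfl⟩ := Nat.even_or_odd' t
  · have h2 : 2 * m / 2 = m := by omega
    rw [h2, ← Nat.centralBinom_eq_two_mul_choose] at h1
    have h3 := central_le m
    calc 2 * m * ((2 * m).choose j) ^ 2 ≤ (3 * m + 1) * (Nat.centralBinom m) ^ 2 :=
          Nat.mul_le_mul (by omega) (Nat.pow_le_pow_left h1 2)
      _ ≤ 16 ^ m := h3
      _ = 4 ^ (2 * m) := by rw [pow_mul]; norm_num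
  · have h2 : (2 * m + 1) / 2 = m := by omega
    rw [h2] at h1
    have h3 := central_le (m + 1)
    have h4 : Nat.centralBinom (m + 1) = 2 * (2 * m + 1).choose m := by
      rw [Nat.centralBinom_eq_two_mul_choose, show 2 * (m + 1) = (2 * m + 1) + 1 by ring,
        Nat.choose_succ_succ', Nat.choose_symm_half]
      ring
    rw [h4] at h3
    have h5 : (16 : ℕ) ^ (m + 1) = 4 * 4 ^ (2 * m + 1) := by
      rw [pow_succ, pow_succ, pow_mul]
      norm_num
      ring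
    rw [h5] at h3
    have h6 : (2 * m + 1) * ((2 * m + 1).choose j) ^ 2 ≤
        (3 * m + 4) * ((2 * m + 1).choose m) ^ 2 :=
      Nat.mul_le_mul (by omega) (Nat.pow_le_pow_left h1 2)
    have h7 : (3 * (m + 1) + 1) * (2 * (2 * m + 1).choose m) ^ 2 =
        4 * ((3 * m + 4) * ((2 * m + 1).choose m) ^ 2) := by ring
    rw [h7] at h3
    omega

theorem Dom_pair (a b : ℕ) : ((a : ℝ) + 1) * ((b : ℝ) + 1) *
    ((Nat.centralBinom b : ℝ) * Nat.centralBinom a) ^ 2 ≤ 16 ^ (a + b) := by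
  have h : ∀ n : ℕ, ((n : ℝ) + 1) * (Nat.centralBinom n : ℝ) ^ 2 ≤ 16 ^ n := by
    intro n
    have h1 : (((3 * n + 1) * Nat.centralBinom n ^ 2 : ℕ) : ℝ) ≤ ((16 ^ n : ℕ) : ℝ) := by
      exact_mod_cast central_le n
    push_cast at h1
    have h2 : (0 : ℝ) ≤ (Nat.centralBinom n : ℝ) ^ 2 := by positivity
    have h3 : (0 : ℝ) ≤ n := Nat.cast_nonneg n
    nlinarith
  have ha := h a
  have hb := h b
  have h0 : (0 : ℝ) ≤ ((b : ℝ) + 1) * (Nat.centralBinom b : ℝ) ^ 2 := by positivity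
  calc ((a : ℝ) + 1) * ((b : ℝ) + 1) * ((Nat.centralBinom b : ℝ) * Nat.centralBinom a) ^ 2
      = (((a : ℝ) + 1) * (Nat.centralBinom a : ℝ) ^ 2) *
        (((b : ℝ) + 1) * (Nat.centralBinom b : ℝ) ^ 2) := by ring
    _ ≤ 16 ^ a * 16 ^ b := mul_le_mul ha hb h0 (by positivity)
    _ = 16 ^ (a + b) := by rw [pow_add]

theorem Dom_id {t j : ℕ} (hj : j ≤ t) :
    (t + 2).choose (j + 1) * ((j + 1) * (t - j + 1)) = (t + 1) * (t + 2) * t.choose j := by
  have h1 := Nat.add_one_mul_choose_eq (t + 1) j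
  have h2 := Nat.choose_mul_succ_eq t j
  have h3 : t + 1 - j = t - j + 1 := by omega
  rw [h3] at h2
  calc (t + 2).choose (j + 1) * ((j + 1) * (t - j + 1))
      = ((t + 1 + 1).choose (j + 1) * (j + 1)) * (t - j + 1) := by ring
    _ = ((t + 1 + 1) * (t + 1).choose j) * (t - j + 1) := by rw [h1]
    _ = (t + 2) * ((t + 1).choose j * (t - j + 1)) := by ring
    _ = (t + 2) * (t.choose j * (t + 1)) := by rw [h2]
    _ = _ := by ring

theorem Dom_sum {t : ℕ} (ht : 1 ≤ t) :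
    ∑ j ∈ Finset.range (t + 1), (t.choose j : ℝ) / (((j : ℝ) + 1) * (((t - j : ℕ) : ℝ) + 1)) ≤
      4 * 2 ^ t / (t : ℝ) ^ 2 := by
  have ht0 : (0 : ℝ) < t := by exact_mod_cast ht
  have h1 : ∑ j ∈ Finset.range (t + 1),
      (t.choose j : ℝ) / (((j : ℝ) + 1) * (((t - j : ℕ) : ℝ) + 1)) =
      (∑ j ∈ Finset.range (t + 1), ((t + 2).choose (j + 1) : ℝ)) / (((t : ℝ) + 1) * (t + 2)) := by
    rw [Finset.sum_div]
    refine Finset.sum_congr rfl fun j hj => ?_
    have hj' : j ≤ t := by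
      have := Finset.mem_range.1 hj
      omega
    have h2 : (((t + 2).choose (j + 1) * ((j + 1) * (t - j + 1)) : ℕ) : ℝ) =
        (((t + 1) * (t + 2) * t.choose j : ℕ) : ℝ) := by exact_mod_cast Dom_id hj'
    rw [Nat.cast_mul, Nat.cast_mul, Nat.cast_mul, Nat.cast_mul] at h2
    rw [Nat.cast_add j 1, Nat.cast_add (t - j) 1, Nat.cast_add t 1, Nat.cast_add t 2] at h2
    have h3 : (0 : ℝ) < ((j : ℝ) + 1) * (((t - j : ℕ) : ℝ) + 1) := by positivity
    have h4 : (0 : ℝ) < ((t : ℝ) + 1) * (t + 2) := by positivity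
    rw [div_eq_div_iff h3.ne' h4.ne']
    push_cast at h2 ⊢
    linarith
  have h5 : ∑ j ∈ Finset.range (t + 1), (t + 2).choose (j + 1) ≤ 2 ^ (t + 2) := by
    have e := Nat.sum_range_choose (t + 2)
    rw [Finset.sum_range_succ', Finset.sum_range_succ] at e
    omega
  have h6 : ∑ j ∈ Finset.range (t + 1), ((t + 2).choose (j + 1) : ℝ) ≤ 4 * 2 ^ t := by
    have h7 : ((∑ j ∈ Finset.range (t + 1), (t + 2).choose (j + 1) : ℕ) : ℝ) ≤
        ((2 ^ (t + 2) : ℕ) : ℝ) := by exact_mod_cast h5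
    push_cast at h7
    have h8 : (2 : ℝ) ^ (t + 2) = 4 * 2 ^ t := by ring
    linarith
  rw [h1]
  refine div_le_div₀ (by positivity) h6 (by positivity) ?_
  nlinarith

theorem dom_le {t : ℕ} (ht : 1 ≤ t) :
    ((∑ j ∈ Finset.range (t + 1),
      (t.choose j) ^ 2 * (Nat.centralBinom (t - j) * Nat.centralBinom j) : ℕ) : ℝ) / 16 ^ t ≤
      2 / (Real.sqrt t * t) := by
  have ht0 : (0 : ℝ) < t := by exact_mod_cast ht
  have hs : (0 : ℝ) < Real.sqrt t := Real.sqrt_pos.2 ht0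
  have hss : Real.sqrt t * Real.sqrt t = t := Real.mul_self_sqrt ht0.le
  have h1 : ∀ j, (t.choose j : ℝ) ≤ 2 ^ t / Real.sqrt t := by
    intro j
    rw [le_div_iff₀ hs]
    have h2 : ((t * (t.choose j) ^ 2 : ℕ) : ℝ) ≤ ((4 ^ t : ℕ) : ℝ) := by
      exact_mod_cast Dom_choose t j
    push_cast at h2
    refine le_of_sq_le_sq ?_ (by positivity)
    calc ((t.choose j : ℝ) * Real.sqrt t) ^ 2 = (Real.sqrt t * Real.sqrt t) * (t.choose j : ℝ) ^ 2 := by
          ring
      _ = t * (t.choose j : ℝ) ^ 2 := by rw [hss]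
      _ ≤ 4 ^ t := h2
      _ = (2 ^ t) ^ 2 := by rw [← pow_mul, mul_comm t 2, pow_mul]; norm_num
  have h3 : ∀ j ∈ Finset.range (t + 1),
      (Nat.centralBinom (t - j) : ℝ) * Nat.centralBinom j ≤
        4 ^ t * ((t : ℝ) / 4 * (1 / (((j : ℝ) + 1) * (((t - j : ℕ) : ℝ) + 1))) + 1 / t) := by
    intro j hj
    have hj' : j ≤ t := by
      have := Finset.mem_range.1 hj
      omega
    have h4 := Dom_pair j (t - j)
    rw [show j + (t - j) = t by omega] at h4
    set y : ℝ := (Nat.centralBinom (t - j) : ℝ) * Nat.centralBinom j with hy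
    set D : ℝ := ((j : ℝ) + 1) * (((t - j : ℕ) : ℝ) + 1) with hD
    have hD0 : 0 < D := by positivity
    have h5 : (y / 4 ^ t) ^ 2 ≤ 1 / D := by
      rw [div_pow, le_div_iff₀ hD0, div_mul_eq_mul_div, div_le_one (by positivity)]
      calc y ^ 2 * D = D * y ^ 2 := by ring
        _ ≤ 16 ^ t := h4
        _ = (4 ^ t) ^ 2 := by rw [← pow_mul, mul_comm t 2, pow_mul]; norm_num
    have h6 : y / 4 ^ t ≤ (t : ℝ) / 4 * (y / 4 ^ t) ^ 2 + 1 / t := by
      have h7 : 0 ≤ (t : ℝ) * (y / 4 ^ t / 2 - 1 / t) ^ 2 := by positivity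
      have h8 : (t : ℝ) * (y / 4 ^ t / 2 - 1 / t) ^ 2 =
          (t : ℝ) / 4 * (y / 4 ^ t) ^ 2 + 1 / t - y / 4 ^ t := by
        field_simp
        ring
      linarith
    have h9 : y / 4 ^ t ≤ (t : ℝ) / 4 * (1 / D) + 1 / t := by
      have : (t : ℝ) / 4 * (y / 4 ^ t) ^ 2 ≤ (t : ℝ) / 4 * (1 / D) :=
        mul_le_mul_of_nonneg_left h5 (by positivity)
      linarith
    rw [div_le_iff₀ (by positivity)] at h9
    linarith
  have h10 : ∑ j ∈ Finset.range (t + 1),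
      (t.choose j : ℝ) * ((Nat.centralBinom (t - j) : ℝ) * Nat.centralBinom j) ≤
      4 ^ t * (2 * 2 ^ t / t) := by
    calc ∑ j ∈ Finset.range (t + 1),
        (t.choose j : ℝ) * ((Nat.centralBinom (t - j) : ℝ) * Nat.centralBinom j)
        ≤ ∑ j ∈ Finset.range (t + 1), (t.choose j : ℝ) * (4 ^ t * ((t : ℝ) / 4 *
          (1 / (((j : ℝ) + 1) * (((t - j : ℕ) : ℝ) + 1))) + 1 / t)) :=
          Finset.sum_le_sum fun j hj => mul_le_mul_of_nonneg_left (h3 j hj) (by positivity)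
      _ = 4 ^ t * ((t : ℝ) / 4 * (∑ j ∈ Finset.range (t + 1),
          (t.choose j : ℝ) / (((j : ℝ) + 1) * (((t - j : ℕ) : ℝ) + 1))) +
          (∑ j ∈ Finset.range (t + 1), (t.choose j : ℝ)) / t) := by
          rw [Finset.mul_sum, Finset.sum_div, ← Finset.sum_add_distrib, Finset.mul_sum]
          refine Finset.sum_congr rfl fun j _ => ?_
          ring
      _ ≤ 4 ^ t * ((t : ℝ) / 4 * (4 * 2 ^ t / (t : ℝ) ^ 2) + 2 ^ t / t) := by
          have h11 : ∑ j ∈ Finset.range (t + 1), (t.choose j : ℝ) = 2 ^ t := by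
            exact_mod_cast Nat.sum_range_choose t
          rw [h11]
          have h12 := mul_le_mul_of_nonneg_left (Dom_sum ht)
            (show (0 : ℝ) ≤ (t : ℝ) / 4 by positivity)
          refine mul_le_mul_of_nonneg_left ?_ (by positivity)
          linarith
      _ = 4 ^ t * (2 * 2 ^ t / t) := by
          congr 1
          field_simp
          ring
  have h13 : ((∑ j ∈ Finset.range (t + 1),
      (t.choose j) ^ 2 * (Nat.centralBinom (t - j) * Nat.centralBinom j) : ℕ) : ℝ) ≤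
      2 ^ t / Real.sqrt t * (4 ^ t * (2 * 2 ^ t / t)) := by
    push_cast
    calc ∑ j ∈ Finset.range (t + 1), (t.choose j : ℝ) ^ 2 *
        ((Nat.centralBinom (t - j) : ℝ) * Nat.centralBinom j)
        ≤ ∑ j ∈ Finset.range (t + 1), 2 ^ t / Real.sqrt t * ((t.choose j : ℝ) *
          ((Nat.centralBinom (t - j) : ℝ) * Nat.centralBinom j)) := by
          refine Finset.sum_le_sum fun j _ => ?_
          rw [pow_two, mul_assoc]
          exact mul_le_mul_of_nonneg_right (h1 j) (by positivity)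
      _ = 2 ^ t / Real.sqrt t * ∑ j ∈ Finset.range (t + 1), (t.choose j : ℝ) *
          ((Nat.centralBinom (t - j) : ℝ) * Nat.centralBinom j) := by rw [Finset.mul_sum]
      _ ≤ _ := mul_le_mul_of_nonneg_left h10 (by positivity)
  rw [div_le_iff₀ (by positivity)]
  refine h13.trans (le_of_eq ?_)
  have h14 : (16 : ℝ) ^ t = 2 ^ t * (4 ^ t * 2 ^ t) := by
    rw [← mul_pow, ← mul_pow]
    norm_num
  rw [h14]
  field_simp

end Pool.Agent.SQ
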