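import Pool.Agent.H.MP_53e59f_lc.SN.First

/-!
# Groups of letters

`Fin (a * r) ≃ Fin a × Fin r` (`finProdFinEquiv.symm`). A list `z` of length `t` is mapped to the list of the pairs of the first
components (in `RT a t` if `z` returns: `List.Perm.map`) and the two functions `Fin t → Fin r` (or lists of length `t`) of the second
components. This is injective.
-/

namespace Pool.Agent.SQ

open Pool.Agent.SN

private theorem Mul_inj {α β γ δ : Type} (g : α → β) (h1 : α → γ) (h2 : α → δ)
    (hinj : ∀ x y, g x = g y → h1 x = h1 y → h2 x = h2 y → x = y) :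
    ∀ z z' : List α, z.map g = z'.map g → z.map h1 = z'.map h1 → z.map h2 = z'.map h2 →
      z = z' := by
  intro z
  induction z with
  | nil =>
    intro z' h _ _
    cases z' with
    | nil => rfl
    | cons y z' => simp at h
  | cons x z ih =>
    intro z' h a b
    cases z' with
    | nil => simp at h
    | cons y z' =>
      simp only [List.map_cons, List.cons.injEq] at h a b
      rw [hinj x y h.1 a.1 b.1, ih z' h.2 a.2 b.2]

theorem RT_mul (a r t : ℕ) : (RT (a * r) t).ncard ≤ (RT a t).ncard * (r ^ t * r ^ t) := by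
  obtain ⟨e, -⟩ : ∃ e : Fin (a * r) ≃ Fin a × Fin r, e = finProdFinEquiv.symm := ⟨_, rfl⟩
  have h1 : (RT (a * r) t).ncard ≤ (RT a t ×ˢ (W (Fin r) t ×ˢ W (Fin r) t)).ncard := by
    refine Set.ncard_le_ncard_of_injOn
      (fun z : List (Fin (a * r) × Fin (a * r)) =>
        (z.map (fun p => ((e p.1).1, (e p.2).1)), (z.map (fun p => (e p.1).2),
          z.map (fun p => (e p.2).2)))) ?_ ?_
      ((RT_fin a t).prod ((W_fin (Fin r) t).prod (W_fin (Fin r) t)))
    · rintro z ⟨hz1, hz2⟩
      refine ⟨⟨?_, ?_⟩, ?_, ?_⟩
      · show (z.map (fun p => ((e p.1).1, (e p.2).1))).length = t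
        rw [List.length_map, hz1]
      · show Ret (z.map (fun p => ((e p.1).1, (e p.2).1)))
        unfold Ret at hz2 ⊢
        have h2 := hz2.map (fun x => (e x).1)
        rw [List.map_map, List.map_map] at h2 ⊢
        exact h2
      · show (z.map (fun p => (e p.1).2)).length = t
        rw [List.length_map, hz1]
      · show (z.map (fun p => (e p.2).2)).length = t
        rw [List.length_map, hz1]
    · intro z _ z' _ h
      simp only [Prod.mk.injEq] at h
      refine Mul_inj _ _ _ ?_ z z' h.1 h.2.1 h.2.2
      intro x y h3 h4 h5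
      simp only [Prod.mk.injEq] at h3
      exact Prod.ext (e.injective (Prod.ext h3.1 h4)) (e.injective (Prod.ext h3.2 h5))
  rw [Set.ncard_prod, Set.ncard_prod, W_card, Nat.card_eq_fintype_card, Fintype.card_fin] at h1
  exact h1

end Pool.Agent.SQ
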