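import Pool.Agent.H.MP_53e59f_lc.SN.First
import Pool.Agent.H.MP_53e59f_lc.SN.Bit

/-!
# Two letters

A list `z` of length `t` of pairs over `Fin 2` is determined by the two bit strings `Fin t → Bool` (letter = 1); if `z` returns then
they have the same number of ones. So `(RT 2 t).ncard ≤ centralBinom t` by `SN.bit_card` (see SN/Four.lean, the same with one bit and
no other part).
-/

namespace Pool.Agent.SQ

open Pool.Agent.SN

private theorem Two_count {α : Type} {t : ℕ} (f : Fin t → α) (p : α → Bool) :
    (List.ofFn f).countP p = (Finset.univ.filter fun i => p (f i) = true).card := by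
  have h : ((List.ofFn f : List α) : Multiset α) = (Finset.univ : Finset (Fin t)).val.map f :=
    (Fin.univ_val_map f).symm
  have h1 : Multiset.countP (fun a => p a = true) ((List.ofFn f : List α) : Multiset α) =
      (List.ofFn f).countP p := by
    rw [Multiset.coe_countP]
    congr 1
    funext a
    simp
  rw [← h1, h, Multiset.countP_map]
  rfl

theorem RT_two (t : ℕ) : (RT 2 t).ncard ≤ Nat.centralBinom t := by
  classical
  obtain ⟨e⟩ : Nonempty (Fin 2 ≃ Bool) := ⟨finTwoEquiv⟩
  obtain ⟨P, hP⟩ : ∃ P : Finset ((Fin t → Bool) × (Fin t → Bool)), P =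
      Finset.univ.filter fun p : (Fin t → Bool) × (Fin t → Bool) => ones p.1 = ones p.2 := ⟨_, rfl⟩
  have hPc : P.card = Nat.centralBinom t := by
    rw [hP]
    exact bit_card t
  let B : (Fin t → Bool) × (Fin t → Bool) → List (Fin 2 × Fin 2) := fun q =>
    List.ofFn fun i : Fin t => (e.symm (q.1 i), e.symm (q.2 i))
  have hsub : RT 2 t ⊆ B '' (P : Set _) := by
    intro z hz
    obtain ⟨hlen, hret⟩ := hz
    subst hlen
    obtain ⟨g, hg⟩ : ∃ g : Fin z.length → Fin 2 × Fin 2, List.ofFn g = z := ⟨z.get, List.ofFn_get z⟩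
    refine ⟨(fun i => e (g i).1, fun i => e (g i).2), ?_, ?_⟩
    · rw [Finset.mem_coe, hP, Finset.mem_filter]
      refine ⟨Finset.mem_univ _, ?_⟩
      unfold Ret at hret
      have h1 := hret.countP_eq (fun a => e a)
      rw [← hg, List.map_ofFn, List.map_ofFn, Two_count, Two_count] at h1
      unfold ones
      exact h1
    · change (List.ofFn fun i : Fin z.length => (e.symm (e (g i).1), e.symm (e (g i).2))) = z
      have hfun : (fun i : Fin z.length => (e.symm (e (g i).1), e.symm (e (g i).2))) = g := by
        funext i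
        exact Prod.ext (e.symm_apply_apply (g i).1) (e.symm_apply_apply (g i).2)
      exact Eq.trans (congrArg List.ofFn hfun) hg
  have h1 : (RT 2 t).ncard ≤ (B '' (P : Set ((Fin t → Bool) × (Fin t → Bool)))).ncard :=
    Set.ncard_le_ncard hsub (P.finite_toSet.image B)
  have h2 : (B '' (P : Set ((Fin t → Bool) × (Fin t → Bool)))).ncard ≤
      (P : Set ((Fin t → Bool) × (Fin t → Bool))).ncard := Set.ncard_image_le P.finite_toSet
  rw [Set.ncard_coe_finset, hPc] at h2
  exact h1.trans h2

end Pool.Agent.SQ
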