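import Pool.Agent.H.MP_53e59f_lc.SQ.Split2
import Pool.Agent.H.MP_53e59f_lc.SQ.Two
import Pool.Agent.H.MP_53e59f_lc.SQ.Mul
import Pool.Agent.H.MP_53e59f_lc.SQ.Dom
import Pool.Agent.H.MP_53e59f_lc.SO.Split
import Pool.Agent.H.MP_53e59f_lc.SO.Neg

/-!
# The sum of the return probabilities for at least four letters

Let `p s t = (RT s t).ncard / (s^2)^t`.
(1) `p 4 t ≤ 2 / (√t * t)` for `t ≥ 1` (`RT_split2 2 2 t`, `RT_two`, `dom_le`), and `∑ 1 / (√t * t)` converges (`t ^ (3/2)`,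
`Real.summable_one_div_nat_rpow`), so there is `B4 ≥ 0` with `∑ t ∈ Icc 1 L, p 4 t ≤ B4` for all `L`.
(2) `p (4 r) t ≤ p 4 t` (`RT_mul 4 r t`).
(3) `s = g + e`, `g = 4 * (s / 4) = 4 r`, `e = s % 4 ≤ 3`, `x = g / s ≥ 4 / 7`, `1 - x = e / s`. By `SO.RT_split`:
`p s t ≤ ∑ j ∈ range (t + 1), (q t j)^2 * p g j` with `q t j = t.choose j * x^j * (1 - x)^(t - j) ∈ [0, 1]`, `(q t j)^2 ≤ q t j`. Exchange
the sums (`q t j = 0` for `j > t`), `∑ t ∈ range (L + 1), q t j ≤ 1 / x ≤ 7 / 4` (`SO.neg_le`):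
`∑ t ∈ Icc 1 L, p s t ≤ 7 / 4 * ∑ j ∈ range (L + 1), p g j ≤ 7 / 4 * (1 + B4)` (`p g 0 ≤ 1`). See SO/Dbl.lean and SO/RTs.lean for similar proofs.
-/

namespace Pool.Agent.SQ

open Pool.Agent.SN

private theorem Bdd_term {t : ℕ} (ht : 1 ≤ t) :
    ((RT 4 t).ncard : ℝ) / (((4 : ℕ) : ℝ) ^ 2) ^ t ≤ 2 * (1 / (t : ℝ) ^ (3 / 2 : ℝ)) := by
  have h1 : (RT 4 t).ncard ≤ ∑ j ∈ Finset.range (t + 1),
      (t.choose j) ^ 2 * (Nat.centralBinom (t - j) * Nat.centralBinom j) := by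
    refine (RT_split2 2 2 t).trans (Finset.sum_le_sum fun j _ => ?_)
    exact Nat.mul_le_mul_left _ (Nat.mul_le_mul (RT_two _) (RT_two _))
  have h2 : (((4 : ℕ) : ℝ) ^ 2) ^ t = (16 : ℝ) ^ t := by norm_num
  have ht0 : (0 : ℝ) < t := by exact_mod_cast ht
  have h3 : Real.sqrt t * t = (t : ℝ) ^ (3 / 2 : ℝ) := by
    rw [Real.sqrt_eq_rpow, ← Real.rpow_add_one ht0.ne']
    norm_num
  calc ((RT 4 t).ncard : ℝ) / (((4 : ℕ) : ℝ) ^ 2) ^ t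
      ≤ ((∑ j ∈ Finset.range (t + 1),
        (t.choose j) ^ 2 * (Nat.centralBinom (t - j) * Nat.centralBinom j) : ℕ) : ℝ) / 16 ^ t := by
        rw [h2]
        refine div_le_div_of_nonneg_right ?_ (by positivity)
        exact_mod_cast h1
    _ ≤ 2 / (Real.sqrt t * t) := dom_le ht
    _ = 2 * (1 / (t : ℝ) ^ (3 / 2 : ℝ)) := by
        rw [h3]
        ring

/-- part (1) -/
theorem four_bdd : ∃ B : ℝ, 0 ≤ B ∧ ∀ L : ℕ,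
    ∑ t ∈ Finset.Icc 1 L, ((RT 4 t).ncard : ℝ) / (((4 : ℕ) : ℝ) ^ 2) ^ t ≤ B := by
  have hs : Summable fun n : ℕ => 1 / (n : ℝ) ^ (3 / 2 : ℝ) :=
    Real.summable_one_div_nat_rpow.2 (by norm_num)
  refine ⟨2 * ∑' n : ℕ, 1 / (n : ℝ) ^ (3 / 2 : ℝ), ?_, fun L => ?_⟩
  · have h1 : 0 ≤ ∑' n : ℕ, 1 / (n : ℝ) ^ (3 / 2 : ℝ) := tsum_nonneg fun n => by positivity
    linarith
  · calc ∑ t ∈ Finset.Icc 1 L, ((RT 4 t).ncard : ℝ) / (((4 : ℕ) : ℝ) ^ 2) ^ t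
        ≤ ∑ t ∈ Finset.Icc 1 L, 2 * (1 / (t : ℝ) ^ (3 / 2 : ℝ)) :=
          Finset.sum_le_sum fun t ht => Bdd_term (Finset.mem_Icc.1 ht).1
      _ = 2 * ∑ t ∈ Finset.Icc 1 L, 1 / (t : ℝ) ^ (3 / 2 : ℝ) := by rw [Finset.mul_sum]
      _ ≤ 2 * ∑' n : ℕ, 1 / (n : ℝ) ^ (3 / 2 : ℝ) :=
          mul_le_mul_of_nonneg_left (hs.sum_le_tsum _ fun n _ => by positivity) (by norm_num)

end Pool.Agent.SQ
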