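import Pool.Agent.H.MP_53e59f_lc.SQ.Bdd

/-!
# The sum of the return probabilities for at least four letters, parts (2) and (3)

See the header of SQ/Bdd.lean; `four_bdd` is a black box.
-/

namespace Pool.Agent.SQ

open Pool.Agent.SN

private noncomputable def Bdd2_q (p : ℚ) (t j : ℕ) : ℚ :=
  (t.choose j : ℚ) * p ^ j * (1 - p) ^ (t - j)

private theorem Bdd2_q_nonneg {p : ℚ} (hp : 0 ≤ p) (hp1 : p ≤ 1) (t j : ℕ) : 0 ≤ Bdd2_q p t j := by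
  have h : 0 ≤ 1 - p := by linarith
  unfold Bdd2_q
  positivity

private theorem Bdd2_q_le {p : ℚ} (hp : 0 ≤ p) (hp1 : p ≤ 1) (t j : ℕ) : Bdd2_q p t j ≤ 1 := by
  rcases Nat.lt_or_ge t j with h | h
  · unfold Bdd2_q
    rw [Nat.choose_eq_zero_of_lt h]
    simp
  · have h1 := add_pow p (1 - p) t
    rw [add_sub_cancel, one_pow] at h1
    have h2 : ∑ m ∈ Finset.range (t + 1), Bdd2_q p t m = 1 := by
      rw [h1]
      refine Finset.sum_congr rfl fun m _ => ?_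
      unfold Bdd2_q
      ring
    rw [← h2]
    exact Finset.single_le_sum (f := fun m => Bdd2_q p t m)
      (fun m _ => Bdd2_q_nonneg hp hp1 t m) (Finset.mem_range.2 (by omega))

private noncomputable def Bdd2_p (s t : ℕ) : ℝ := ((RT s t).ncard : ℝ) / ((s : ℝ) ^ 2) ^ t

private theorem Bdd2_p_nonneg (s t : ℕ) : 0 ≤ Bdd2_p s t := by
  unfold Bdd2_p
  positivity

private theorem Bdd2_p_zero (s : ℕ) : Bdd2_p s 0 ≤ 1 := by
  unfold Bdd2_p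
  rw [pow_zero, div_one]
  have h : RT s 0 ⊆ {[]} := by
    rintro z ⟨hz, -⟩
    exact List.length_eq_zero_iff.1 hz
  have h1 := Set.ncard_le_ncard h (Set.finite_singleton _)
  rw [Set.ncard_singleton] at h1
  exact_mod_cast h1

private theorem Bdd2_p_mul {r : ℕ} (hr : 1 ≤ r) (t : ℕ) : Bdd2_p (4 * r) t ≤ Bdd2_p 4 t := by
  unfold Bdd2_p
  have hr0 : (0 : ℝ) < r := by exact_mod_cast hr
  have h1 : ((RT (4 * r) t).ncard : ℝ) ≤ (RT 4 t).ncard * ((r : ℝ) ^ t * (r : ℝ) ^ t) := by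
    exact_mod_cast RT_mul 4 r t
  have h2 : (((4 * r : ℕ) : ℝ) ^ 2) ^ t = (((4 : ℕ) : ℝ) ^ 2) ^ t * ((r : ℝ) ^ t * (r : ℝ) ^ t) := by
    rw [Nat.cast_mul, mul_pow, mul_pow, ← mul_pow (r : ℝ) (r : ℝ) t, ← pow_two (r : ℝ)]
  have h3 : (0 : ℝ) < (((4 : ℕ) : ℝ) ^ 2) ^ t := by positivity
  rw [h2, div_le_div_iff₀ (by positivity) h3]
  calc ((RT (4 * r) t).ncard : ℝ) * (((4 : ℕ) : ℝ) ^ 2) ^ t
      ≤ (RT 4 t).ncard * ((r : ℝ) ^ t * (r : ℝ) ^ t) * (((4 : ℕ) : ℝ) ^ 2) ^ t :=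
        mul_le_mul_of_nonneg_right h1 h3.le
    _ = _ := by ring

private theorem Bdd2_term {s g e : ℕ} (hg : 1 ≤ g) (hsum : g + e = s) (t : ℕ) :
    Bdd2_p s t ≤ ∑ j ∈ Finset.range (t + 1),
      ((Bdd2_q ((g : ℚ) / s) t j : ℚ) : ℝ) * Bdd2_p g j := by
  have hg0 : (0 : ℝ) < g := by exact_mod_cast hg
  have hs1 : 1 ≤ s := by omega
  have hs0 : (0 : ℝ) < s := by exact_mod_cast hs1
  have hsQ : (0 : ℚ) < s := by exact_mod_cast hs1
  have hx0 : (0 : ℚ) ≤ (g : ℚ) / s := by positivity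
  have hx1 : (g : ℚ) / s ≤ 1 := by
    rw [div_le_one hsQ]
    have h1 : g ≤ s := by omega
    exact_mod_cast h1
  have hq : (g : ℚ) + e = s := by exact_mod_cast hsum
  have e1 : 1 - (g : ℚ) / s = e / s := by
    rw [eq_div_iff hsQ.ne', sub_mul, div_mul_cancel₀ _ hsQ.ne', one_mul]
    linarith
  have h1 := SO.RT_split g e t
  rw [hsum] at h1
  have h2 : ((RT s t).ncard : ℝ) ≤ ∑ j ∈ Finset.range (t + 1),
      (t.choose j : ℝ) ^ 2 * ((e : ℝ) ^ (t - j)) ^ 2 * (RT g j).ncard := by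
    exact_mod_cast h1
  unfold Bdd2_p
  rw [div_le_iff₀ (by positivity), Finset.sum_mul]
  refine h2.trans (Finset.sum_le_sum fun j hj => ?_)
  have hjt : j ≤ t := by
    have := Finset.mem_range.1 hj
    omega
  have hq0 : (0 : ℝ) ≤ ((Bdd2_q ((g : ℚ) / s) t j : ℚ) : ℝ) := by
    exact_mod_cast Bdd2_q_nonneg hx0 hx1 t j
  have hq1 : ((Bdd2_q ((g : ℚ) / s) t j : ℚ) : ℝ) ≤ 1 := by
    exact_mod_cast Bdd2_q_le hx0 hx1 t j
  have e2 : ((Bdd2_q ((g : ℚ) / s) t j : ℚ) : ℝ) =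
      (t.choose j : ℝ) * ((g : ℝ) / s) ^ j * ((e : ℝ) / s) ^ (t - j) := by
    unfold Bdd2_q
    rw [e1]
    push_cast
    ring
  have h5 : ((t.choose j : ℝ) * ((g : ℝ) / s) ^ j * ((e : ℝ) / s) ^ (t - j)) ^ 2 *
      (((RT g j).ncard : ℝ) / ((g : ℝ) ^ 2) ^ j) * ((s : ℝ) ^ 2) ^ t =
      (t.choose j : ℝ) ^ 2 * ((e : ℝ) ^ (t - j)) ^ 2 * (RT g j).ncard := by
    have h6 : (s : ℝ) ^ t = s ^ j * s ^ (t - j) := by rw [← pow_add, Nat.add_sub_cancel' hjt]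
    have h7 : ((s : ℝ) ^ 2) ^ t = (s ^ j * s ^ (t - j)) ^ 2 := by
      rw [← h6, ← pow_mul, ← pow_mul, mul_comm]
    have h8 : ((g : ℝ) ^ 2) ^ j = (g ^ j) ^ 2 := by rw [← pow_mul, ← pow_mul, mul_comm]
    have h9 : (s : ℝ) ^ j ≠ 0 := by positivity
    have h10 : (s : ℝ) ^ (t - j) ≠ 0 := by positivity
    have h11 : (g : ℝ) ^ j ≠ 0 := by positivity
    rw [h7, h8, div_pow, div_pow]
    field_simp
  rw [← h5, ← e2]
  refine mul_le_mul_of_nonneg_right (mul_le_mul_of_nonneg_right ?_ (by positivity)) (by positivity)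
  nlinarith

private theorem Bdd2_range (f : ℕ → ℝ) (L : ℕ) :
    ∑ j ∈ Finset.range (L + 1), f j = f 0 + ∑ j ∈ Finset.Icc 1 L, f j := by
  induction L with
  | zero => simp
  | succ L ih =>
    rw [Finset.sum_range_succ, ih, Finset.sum_Icc_succ_top (by omega)]
    ring

theorem all_bdd : ∃ B : ℝ, 0 ≤ B ∧ ∀ s : ℕ, 4 ≤ s → ∀ L : ℕ,
    ∑ t ∈ Finset.Icc 1 L, ((RT s t).ncard : ℝ) / ((s : ℝ) ^ 2) ^ t ≤ B := by
  obtain ⟨B, hB, h4⟩ := four_bdd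
  refine ⟨7 / 4 * (1 + B), by positivity, fun s hs L => ?_⟩
  obtain ⟨r, hr⟩ : ∃ r, r = s / 4 := ⟨_, rfl⟩
  obtain ⟨g, hg⟩ : ∃ g, g = 4 * r := ⟨_, rfl⟩
  have hr1 : 1 ≤ r := by omega
  have hg1 : 1 ≤ g := by omega
  have hsum : g + s % 4 = s := by omega
  obtain ⟨x, hx⟩ : ∃ x : ℚ, x = (g : ℚ) / s := ⟨_, rfl⟩
  have hgQ : (0 : ℚ) < g := by exact_mod_cast hg1
  have hsQ : (0 : ℚ) < s := by exact_mod_cast (by omega : 0 < s)
  have hx0 : 0 < x := by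
    rw [hx]
    exact div_pos hgQ hsQ
  have hx1 : x ≤ 1 := by
    rw [hx, div_le_one hsQ]
    have h1 : g ≤ s := by omega
    exact_mod_cast h1
  have hx2 : 1 / x ≤ 7 / 4 := by
    rw [hx, one_div_div, div_le_div_iff₀ hgQ (by norm_num)]
    have h1 : s * 4 ≤ 7 * g := by omega
    exact_mod_cast h1
  have hS : ∑ j ∈ Finset.range (L + 1), Bdd2_p g j ≤ 1 + B := by
    rw [Bdd2_range]
    refine add_le_add (Bdd2_p_zero g) ((Finset.sum_le_sum fun j _ => ?_).trans (h4 L))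
    rw [hg]
    exact Bdd2_p_mul hr1 j
  have hq : ∀ t j, (0 : ℝ) ≤ ((Bdd2_q x t j : ℚ) : ℝ) := fun t j => by
    exact_mod_cast Bdd2_q_nonneg hx0.le hx1 t j
  have hT : ∀ j, ∑ t ∈ Finset.range (L + 1), ((Bdd2_q x t j : ℚ) : ℝ) ≤ 7 / 4 := fun j => by
    have h1 : ∑ t ∈ Finset.range (L + 1), Bdd2_q x t j ≤ 7 / 4 :=
      (SO.neg_le hx0 hx1 L j).trans hx2
    have h2 : ((∑ t ∈ Finset.range (L + 1), Bdd2_q x t j : ℚ) : ℝ) ≤ ((7 / 4 : ℚ) : ℝ) :=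
      Rat.cast_le.2 h1
    push_cast at h2
    exact h2
  have hsub : Finset.Icc 1 L ⊆ Finset.range (L + 1) := by
    intro t ht
    have := Finset.mem_Icc.1 ht
    exact Finset.mem_range.2 (by omega)
  calc ∑ t ∈ Finset.Icc 1 L, ((RT s t).ncard : ℝ) / ((s : ℝ) ^ 2) ^ t
      ≤ ∑ t ∈ Finset.Icc 1 L, ∑ j ∈ Finset.range (L + 1),
        ((Bdd2_q x t j : ℚ) : ℝ) * Bdd2_p g j := by
        refine Finset.sum_le_sum fun t ht => ?_
        have ht' := (Finset.mem_Icc.1 ht).2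
        have h1 := Bdd2_term hg1 hsum t
        rw [← hx] at h1
        refine le_trans h1 (Finset.sum_le_sum_of_subset_of_nonneg
          (Finset.range_mono (by omega)) fun j _ _ => mul_nonneg (hq t j) (Bdd2_p_nonneg g j))
    _ ≤ ∑ t ∈ Finset.range (L + 1), ∑ j ∈ Finset.range (L + 1),
        ((Bdd2_q x t j : ℚ) : ℝ) * Bdd2_p g j :=
        Finset.sum_le_sum_of_subset_of_nonneg hsub fun t _ _ =>
          Finset.sum_nonneg fun j _ => mul_nonneg (hq t j) (Bdd2_p_nonneg g j)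
    _ = ∑ j ∈ Finset.range (L + 1), (∑ t ∈ Finset.range (L + 1), ((Bdd2_q x t j : ℚ) : ℝ)) *
        Bdd2_p g j := by
        rw [Finset.sum_comm]
        refine Finset.sum_congr rfl fun j _ => ?_
        rw [Finset.sum_mul]
    _ ≤ ∑ j ∈ Finset.range (L + 1), 7 / 4 * Bdd2_p g j :=
        Finset.sum_le_sum fun j _ => mul_le_mul_of_nonneg_right (hT j) (Bdd2_p_nonneg g j)
    _ = 7 / 4 * ∑ j ∈ Finset.range (L + 1), Bdd2_p g j := by rw [Finset.mul_sum]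
    _ ≤ 7 / 4 * (1 + B) := mul_le_mul_of_nonneg_left hS (by norm_num)

end Pool.Agent.SQ
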