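import Mathlib

/-!
# The sum of the first return probabilities

Let `U n = ∑ t ∈ range (n + 1), u t ≤ 1 + B` and `F = ∑ j ∈ Icc 1 L, f j`. Then for all `n`
`U (n + L) ≥ 1 + ∑ t ∈ Icc 1 (n + L), ∑ j ∈ Icc 1 t, f j * u (t - j) = 1 + ∑ j ∈ Icc 1 (n + L), f j * U (n + L - j) ≥ 1 + F * U n`
(exchange of the sums, `U` is monotone, terms `j > L` are dropped). Let `S` be the supremum of the `U n` (`1 ≤ S ≤ 1 + B`). Then
`1 + F * U n ≤ S` for all `n`, so `1 + F * S ≤ S`, i.e. `F * S ≤ S - 1` and `F ≤ 1 - 1 / S ≤ 1 - 1 / (1 + B)`.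
-/

namespace Pool.Agent.SQ

private theorem Pot_swap (M : ℕ) (g : ℕ → ℕ → ℝ) :
    ∑ t ∈ Finset.Icc 1 M, ∑ j ∈ Finset.Icc 1 t, g t j =
      ∑ j ∈ Finset.Icc 1 M, ∑ t ∈ Finset.Ico j (M + 1), g t j := by
  apply Finset.sum_comm'
  intro t j
  simp only [Finset.mem_Icc, Finset.mem_Ico]
  omega

private theorem Pot_key {f u : ℕ → ℝ} (hf : ∀ j, 0 ≤ f j) (hu : ∀ j, 0 ≤ u j) (hu0 : u 0 = 1)
    (h : ∀ t, 1 ≤ t → ∑ j ∈ Finset.Icc 1 t, f j * u (t - j) ≤ u t) (L n : ℕ) :
    1 + (∑ j ∈ Finset.Icc 1 L, f j) * ∑ t ∈ Finset.range (n + 1), u t ≤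
      ∑ t ∈ Finset.range (n + L + 1), u t := by
  have h1 : ∑ t ∈ Finset.range (n + L + 1), u t = ∑ t ∈ Finset.Icc 1 (n + L), u t + 1 := by
    rw [Finset.sum_range_succ', hu0]
    congr 1
    rw [← Finset.Ico_add_one_right_eq_Icc, Finset.sum_Ico_eq_sum_range]
    apply Finset.sum_congr (by simp)
    intro i _
    rw [add_comm]
  rw [h1, add_comm]
  apply add_le_add_left
  calc (∑ j ∈ Finset.Icc 1 L, f j) * ∑ t ∈ Finset.range (n + 1), u t
      = ∑ j ∈ Finset.Icc 1 L, f j * ∑ t ∈ Finset.range (n + 1), u t := Finset.sum_mul _ _ _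
    _ ≤ ∑ j ∈ Finset.Icc 1 L, ∑ t ∈ Finset.Ico j (n + L + 1), f j * u (t - j) := by
        apply Finset.sum_le_sum
        intro j hj
        rw [Finset.mem_Icc] at hj
        rw [← Finset.mul_sum]
        apply mul_le_mul_of_nonneg_left _ (hf j)
        rw [Finset.sum_Ico_eq_sum_range]
        have e : ∑ k ∈ Finset.range (n + L + 1 - j), u (j + k - j) =
            ∑ k ∈ Finset.range (n + L + 1 - j), u k := by
          apply Finset.sum_congr rfl
          intro k _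
          rw [Nat.add_sub_cancel_left]
        rw [e]
        apply Finset.sum_le_sum_of_subset_of_nonneg
        · intro k hk
          rw [Finset.mem_range] at hk ⊢
          omega
        · intro k _ _
          exact hu k
    _ ≤ ∑ j ∈ Finset.Icc 1 (n + L), ∑ t ∈ Finset.Ico j (n + L + 1), f j * u (t - j) := by
        apply Finset.sum_le_sum_of_subset_of_nonneg
        · intro k hk
          rw [Finset.mem_Icc] at hk ⊢
          omega
        · intro k _ _
          exact Finset.sum_nonneg fun t _ => mul_nonneg (hf k) (hu _)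
    _ = ∑ t ∈ Finset.Icc 1 (n + L), ∑ j ∈ Finset.Icc 1 t, f j * u (t - j) :=
        (Pot_swap (n + L) fun t j => f j * u (t - j)).symm
    _ ≤ ∑ t ∈ Finset.Icc 1 (n + L), u t := by
        apply Finset.sum_le_sum
        intro t ht
        rw [Finset.mem_Icc] at ht
        exact h t ht.1

theorem pot {f u : ℕ → ℝ} (hf : ∀ j, 0 ≤ f j) (hu : ∀ j, 0 ≤ u j) (hu0 : u 0 = 1)
    (h : ∀ t, 1 ≤ t → ∑ j ∈ Finset.Icc 1 t, f j * u (t - j) ≤ u t) {B : ℝ} (hB0 : 0 ≤ B)
    (hB : ∀ L, ∑ t ∈ Finset.Icc 1 L, u t ≤ B) (L : ℕ) :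
    (∑ j ∈ Finset.Icc 1 L, f j) * (1 + B) ≤ B := by
  set F := ∑ j ∈ Finset.Icc 1 L, f j with hF
  set U : ℕ → ℝ := fun n => ∑ t ∈ Finset.range (n + 1), u t with hU
  have hF0 : 0 ≤ F := Finset.sum_nonneg fun j _ => hf j
  have hUB : ∀ n, U n ≤ 1 + B := by
    intro n
    have e : U n = ∑ t ∈ Finset.Icc 1 n, u t + 1 := by
      rw [hU]
      simp only
      rw [Finset.sum_range_succ', hu0]
      congr 1
      rw [← Finset.Ico_add_one_right_eq_Icc, Finset.sum_Ico_eq_sum_range]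
      apply Finset.sum_congr (by simp)
      intro i _
      rw [add_comm]
    rw [e]
    linarith [hB n]
  have hbdd : BddAbove (Set.range U) := ⟨1 + B, by
    rintro _ ⟨n, rfl⟩
    exact hUB n⟩
  set S := ⨆ n, U n with hS
  have hUS : ∀ n, U n ≤ S := fun n => le_ciSup hbdd n
  have hSB : S ≤ 1 + B := ciSup_le hUB
  have hS1 : 1 ≤ S := by
    have h0 : U 0 = 1 := by simp [hU, hu0]
    rw [← h0]
    exact hUS 0
  have hk : ∀ n, 1 + F * U n ≤ S := fun n => (Pot_key hf hu hu0 h L n).trans (hUS (n + L))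
  have hFS : F * S ≤ S - 1 := by
    rcases eq_or_lt_of_le hF0 with h0 | h0
    · rw [← h0]
      linarith
    · have : S ≤ (S - 1) / F := by
        apply ciSup_le
        intro n
        rw [le_div_iff₀ h0]
        linarith [hk n, mul_comm F (U n)]
      rw [le_div_iff₀ h0] at this
      linarith [mul_comm F S]
  have hSpos : 0 < S := by linarith
  have h5 : F * (1 + B) * S ≤ B * S := by
    have := mul_le_mul_of_nonneg_right hFS (by linarith : (0 : ℝ) ≤ 1 + B)
    nlinarith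
  exact le_of_mul_le_mul_right h5 hSpos

end Pool.Agent.SQ
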