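import Pool.Agent.H.MP_53e59f_lc.SQ.Defs

/-!
# The renewal inequality

The sets `image2 (++) (FR s j) (RT s (t - j))`, `1 ≤ j ≤ t`, are contained in `RT s t` (`List.Perm.append`) and pairwise disjoint: if
`a ++ b = a' ++ b'`, `|a| = j < j' = |a'|`, then `a = a'.take j` returns, which contradicts `a' ∈ FR s j'`. For fixed `j` the map
`(a, b) ↦ a ++ b` is injective on `FR s j ×ˢ RT s (t - j)` (fixed lengths, `List.append_inj`).
-/

namespace Pool.Agent.SQ

open Pool.Agent.SN

private theorem Renew_aux {s j j' : ℕ} {a b a' b' : List (Fin s × Fin s)} (ha : a ∈ FR s j)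
    (ha' : a' ∈ FR s j') (h : a ++ b = a' ++ b') (hj : 1 ≤ j) (hjj : j < j') : False := by
  have h1 : (a ++ b).take j = a := by
    rw [← ha.1]
    exact List.take_left
  have h2 : (a' ++ b').take j = a'.take j :=
    List.take_append_of_le_length (by rw [ha'.1]; omega)
  rw [h, h2] at h1
  exact ha'.2.2 j hj hjj (by rw [h1]; exact ha.2.1)

theorem renew (s t : ℕ) :
    ∑ j ∈ Finset.Icc 1 t, (FR s j).ncard * (RT s (t - j)).ncard ≤ (RT s t).ncard := by
  classical
  have hRTf : ∀ u, (RT s u).Finite := fun u => (W_fin (Fin s × Fin s) u).subset fun _ h => h.1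
  have hTf : ∀ j, (Set.image2 (fun a b => a ++ b) (FR s j) (RT s (t - j))).Finite := fun j =>
    (FR_fin s j).image2 _ (hRTf _)
  have hcard : ∀ j, (Set.image2 (fun a b => a ++ b) (FR s j) (RT s (t - j))).ncard =
      (FR s j).ncard * (RT s (t - j)).ncard := by
    intro j
    rw [← Set.image_prod, Set.ncard_image_of_injOn, Set.ncard_prod]
    rintro ⟨a, b⟩ ⟨ha, hb⟩ ⟨a', b'⟩ ⟨ha', hb'⟩ h
    have h3 := List.append_inj h (ha.1.trans ha'.1.symm)
    exact Prod.ext h3.1 h3.2
  calc ∑ j ∈ Finset.Icc 1 t, (FR s j).ncard * (RT s (t - j)).ncard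
      = ∑ j ∈ Finset.Icc 1 t, (hTf j).toFinset.card := by
        refine Finset.sum_congr rfl fun j _ => ?_
        rw [← hcard j, Set.ncard_eq_toFinset_card _ (hTf j)]
    _ = ((Finset.Icc 1 t).biUnion fun j => (hTf j).toFinset).card := by
        rw [Finset.card_biUnion]
        intro j hj j' hj' hne
        rw [Function.onFun, Finset.disjoint_left]
        intro z hz hz'
        rw [Set.Finite.mem_toFinset] at hz hz'
        obtain ⟨a, ha, b, hb, hab⟩ := hz
        obtain ⟨a', ha', b', hb', hab'⟩ := hz'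
        have h4 : a ++ b = a' ++ b' := hab.trans hab'.symm
        rcases lt_or_gt_of_ne hne with h | h
        · exact Renew_aux ha ha' h4 (Finset.mem_Icc.1 (Finset.mem_coe.1 hj)).1 h
        · exact Renew_aux ha' ha h4.symm (Finset.mem_Icc.1 (Finset.mem_coe.1 hj')).1 h
    _ ≤ (hRTf t).toFinset.card := by
        refine Finset.card_le_card fun z hz => ?_
        obtain ⟨j, hj, hz⟩ := Finset.mem_biUnion.1 hz
        rw [Set.Finite.mem_toFinset] at hz ⊢
        obtain ⟨a, ha, b, hb, rfl⟩ := hz
        have hj2 := (Finset.mem_Icc.1 hj).2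
        refine ⟨?_, ?_⟩
        · change (a ++ b).length = t
          rw [List.length_append, ha.1, hb.1]
          omega
        · change ((a ++ b).map Prod.fst).Perm ((a ++ b).map Prod.snd)
          rw [List.map_append, List.map_append]
          exact List.Perm.append ha.2.1 hb.2
    _ = (RT s t).ncard := (Set.ncard_eq_toFinset_card _ _).symm

end Pool.Agent.SQ
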