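import Pool.Agent.H.MP_53e59f_lc.SQ.Bdd2
import Pool.Agent.H.MP_53e59f_lc.SQ.First
import Pool.Agent.H.MP_53e59f_lc.SQ.Renew
import Pool.Agent.H.MP_53e59f_lc.SQ.Pot

/-!
# The number of lists with many returns

Let `B` be the bound of `all_bdd` and `q = B / (1 + B) < 1`. By `renew` (divided by `(s^2)^t`), `pot` with `f j = (FR s j).ncard / (s^2)^j`,
`u t = (RT s t).ncard / (s^2)^t` (`u 0 = 1`: `RT s 0 = {[]}`): `∑ j ∈ Icc 1 L, f j ≤ q`. Induction on `K` for all `L` (see SO/Sum.lean, SN/Sum.lean):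
`(C s L K).ncard ≤ q ^ K * (s^2)^L`, step with `C_sub2`. Then `A` with `q ^ A ≤ 1 / 2` (`exists_pow_lt_of_lt_one`).
-/

namespace Pool.Agent.SQ

open Pool.Agent.SN

private theorem Card_im {α β γ : Type} (f : α → β → γ) {A : Set α} {B : Set β} (hA : A.Finite)
    (hB : B.Finite) : (Set.image2 f A B).ncard ≤ A.ncard * B.ncard := by
  rw [← Set.image_prod, ← Set.ncard_prod]
  exact Set.ncard_image_le (hA.prod hB)

private theorem Card_un {γ : Type} (T : Finset ℕ) (A : ℕ → Set γ) (hA : ∀ t, (A t).Finite) :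
    (⋃ t ∈ T, A t).ncard ≤ ∑ t ∈ T, (A t).ncard := by
  classical
  induction T using Finset.induction_on with
  | empty => simp
  | insert t T ht ih =>
    rw [Finset.sum_insert ht, Finset.set_biUnion_insert]
    exact (Set.ncard_union_le _ _).trans (Nat.add_le_add le_rfl ih)

private theorem Card_RT0 (s : ℕ) : (RT s 0).ncard = 1 := by
  have h : RT s 0 = {[]} := by
    ext z
    rw [Set.mem_singleton_iff]
    constructor
    · intro hz
      exact List.length_eq_zero_iff.1 hz.1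
    · rintro rfl
      exact ⟨rfl, List.Perm.refl _⟩
  rw [h, Set.ncard_singleton]

private theorem Card_F {B : ℝ} (hB0 : 0 ≤ B) {s : ℕ} (hs : 4 ≤ s)
    (hB : ∀ L : ℕ, ∑ t ∈ Finset.Icc 1 L, ((RT s t).ncard : ℝ) / ((s : ℝ) ^ 2) ^ t ≤ B) (L : ℕ) :
    ∑ j ∈ Finset.Icc 1 L, ((FR s j).ncard : ℝ) / ((s : ℝ) ^ 2) ^ j ≤ B / (1 + B) := by
  have hs0 : (0 : ℝ) < (s : ℝ) ^ 2 := by
    have : (0 : ℝ) < s := by exact_mod_cast (by omega : 0 < s)
    positivity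
  rw [le_div_iff₀ (by linarith)]
  refine pot (f := fun j => ((FR s j).ncard : ℝ) / ((s : ℝ) ^ 2) ^ j)
    (u := fun t => ((RT s t).ncard : ℝ) / ((s : ℝ) ^ 2) ^ t) (fun j => by positivity)
    (fun j => by positivity) ?_ ?_ hB0 hB L
  · show ((RT s 0).ncard : ℝ) / ((s : ℝ) ^ 2) ^ 0 = 1
    rw [Card_RT0]
    simp
  · intro t _
    show ∑ j ∈ Finset.Icc 1 t, ((FR s j).ncard : ℝ) / ((s : ℝ) ^ 2) ^ j *
      (((RT s (t - j)).ncard : ℝ) / ((s : ℝ) ^ 2) ^ (t - j)) ≤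
      ((RT s t).ncard : ℝ) / ((s : ℝ) ^ 2) ^ t
    have h1 : ∑ j ∈ Finset.Icc 1 t, ((FR s j).ncard : ℝ) * ((RT s (t - j)).ncard : ℝ) ≤
        ((RT s t).ncard : ℝ) := by
      exact_mod_cast renew s t
    rw [le_div_iff₀ (pow_pos hs0 t), Finset.sum_mul]
    refine (Finset.sum_le_sum fun j hj => ?_).trans h1
    rw [Finset.mem_Icc] at hj
    have e5 : ((s : ℝ) ^ 2) ^ t = ((s : ℝ) ^ 2) ^ j * ((s : ℝ) ^ 2) ^ (t - j) := by
      rw [← pow_add, Nat.add_sub_cancel' hj.2]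
    rw [e5]
    refine le_of_eq ?_
    field_simp

private theorem Card_ind {q : ℝ} (hq0 : 0 ≤ q) {s : ℕ} (hs : 4 ≤ s)
    (hF : ∀ L : ℕ, ∑ j ∈ Finset.Icc 1 L, ((FR s j).ncard : ℝ) / ((s : ℝ) ^ 2) ^ j ≤ q)
    (K L : ℕ) : ((C s L K).ncard : ℝ) ≤ q ^ K * ((s : ℝ) ^ 2) ^ L := by
  have hs0 : (0 : ℝ) < (s : ℝ) ^ 2 := by
    have : (0 : ℝ) < s := by exact_mod_cast (by omega : 0 < s)
    positivity
  induction K generalizing L with
  | zero =>
    rw [pow_zero, one_mul]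
    have h1 : (C s L 0).ncard ≤ (W (Fin s × Fin s) L).ncard :=
      Set.ncard_le_ncard (fun _ h => h.1) (W_fin (Fin s × Fin s) L)
    have h2 : (C s L 0).ncard ≤ (s ^ 2) ^ L := by
      refine h1.trans (le_of_eq ?_)
      rw [W_card, Nat.card_prod, Nat.card_eq_fintype_card, Fintype.card_fin, sq]
    exact_mod_cast h2
  | succ K ih =>
    have h1 : (C s L (K + 1)).ncard ≤
        ∑ t ∈ Finset.Icc 1 L, (FR s t).ncard * (C s (L - t) K).ncard := by
      refine (Set.ncard_le_ncard (C_sub2 s L K) ?_).trans ?_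
      · refine Set.Finite.biUnion (Finset.finite_toSet _) fun t _ => ?_
        exact (FR_fin s t).image2 _ (C_fin s (L - t) K)
      · refine (Card_un _ _ fun t => (FR_fin s t).image2 _ (C_fin s (L - t) K)).trans ?_
        exact Finset.sum_le_sum fun t _ => Card_im _ (FR_fin s t) (C_fin s (L - t) K)
    have h2 : ∀ t ∈ Finset.Icc 1 L, (((FR s t).ncard : ℝ) * ((C s (L - t) K).ncard : ℝ)) ≤
        (q ^ K * ((s : ℝ) ^ 2) ^ L) * (((FR s t).ncard : ℝ) / ((s : ℝ) ^ 2) ^ t) := by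
      intro t ht
      rw [Finset.mem_Icc] at ht
      have e3 : (0 : ℝ) < ((s : ℝ) ^ 2) ^ t := pow_pos hs0 t
      have e5 : ((s : ℝ) ^ 2) ^ L = ((s : ℝ) ^ 2) ^ t * ((s : ℝ) ^ 2) ^ (L - t) := by
        rw [← pow_add, Nat.add_sub_cancel' ht.2]
      calc ((FR s t).ncard : ℝ) * ((C s (L - t) K).ncard : ℝ)
          ≤ (FR s t).ncard * (q ^ K * ((s : ℝ) ^ 2) ^ (L - t)) :=
            mul_le_mul_of_nonneg_left (ih (L - t)) (by positivity)
        _ = (q ^ K * ((s : ℝ) ^ 2) ^ L) * (((FR s t).ncard : ℝ) / ((s : ℝ) ^ 2) ^ t) := by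
            rw [e5]
            field_simp
    have e1 : ((C s L (K + 1)).ncard : ℝ) ≤
        ∑ t ∈ Finset.Icc 1 L, ((FR s t).ncard : ℝ) * ((C s (L - t) K).ncard : ℝ) := by
      exact_mod_cast h1
    refine e1.trans ((Finset.sum_le_sum h2).trans ?_)
    rw [← Finset.mul_sum]
    have e2 := mul_le_mul_of_nonneg_left (hF L)
      (show (0 : ℝ) ≤ q ^ K * ((s : ℝ) ^ 2) ^ L by positivity)
    refine e2.trans (le_of_eq ?_)
    ring

theorem C_card : ∃ A : ℕ, ∀ s : ℕ, 4 ≤ s → ∀ K L : ℕ,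
    2 ^ K * (C s L (A * K)).ncard ≤ (s ^ 2) ^ L := by
  obtain ⟨B, hB0, hB⟩ := all_bdd
  obtain ⟨q, hq⟩ : ∃ q : ℝ, q = B / (1 + B) := ⟨_, rfl⟩
  have hB1 : 0 < 1 + B := by linarith
  have hq0 : 0 ≤ q := by
    rw [hq]
    positivity
  have hq1 : q < 1 := by
    rw [hq, div_lt_one hB1]
    linarith
  obtain ⟨A, hA⟩ := exists_pow_lt_of_lt_one (show (0 : ℝ) < 1 / 2 by norm_num) hq1
  refine ⟨A, fun s hs K L => ?_⟩
  have h1 := Card_ind hq0 hs (fun L => by rw [hq]; exact Card_F hB0 hs (hB s hs) L) (A * K) L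
  have h2 : q ^ (A * K) ≤ (1 / 2) ^ K := by
    rw [pow_mul]
    exact pow_le_pow_left₀ (pow_nonneg hq0 A) hA.le K
  have h3 : (2 : ℝ) ^ K * ((C s L (A * K)).ncard : ℝ) ≤ ((s : ℝ) ^ 2) ^ L := by
    have h4 : ((C s L (A * K)).ncard : ℝ) ≤ (1 / 2) ^ K * ((s : ℝ) ^ 2) ^ L :=
      h1.trans (mul_le_mul_of_nonneg_right h2 (by positivity))
    have h5 := mul_le_mul_of_nonneg_left h4 (show (0 : ℝ) ≤ 2 ^ K by positivity)
    refine h5.trans (le_of_eq ?_)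
    rw [← mul_assoc, ← mul_pow]
    norm_num
  exact_mod_cast h3

end Pool.Agent.SQ
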