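import Pool.Agent.H.MP_53e59f_lc.SN.First

/-!
# First returns
-/

namespace Pool.Agent.SQ

open Pool.Agent.SN

/-- The returning lists of length `t` without an earlier return. -/
def FR (s t : ℕ) : Set (List (Fin s × Fin s)) :=
  {z | z.length = t ∧ Ret z ∧ ∀ j, 1 ≤ j → j < t → ¬ Ret (z.take j)}

theorem FR_fin (s t : ℕ) : (FR s t).Finite :=
  (W_fin (Fin s × Fin s) t).subset fun _ h => h.1

end Pool.Agent.SQ
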