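import Pool.Agent.H.MP_53e59f_lc.SQ.Cov2
import Pool.Agent.H.MP_53e59f_lc.SQ.Card

/-!
# The final count for at least four letters

From `Bad_card` and `C_card`. With `N = n + m + 1` and `K ≥ A (c + 2) log 2 (2 N)`: `N ^ (c + 2) ≤ 2 ^ ((c + 2) * log 2 (2 N))`.
-/

namespace Pool.Agent.SQ

open Pool.Agent.SN

theorem few : ∃ A : ℕ, ∀ s : ℕ, 4 ≤ s → ∀ n m c : ℕ,
    (Bad s n m (A * ((c + 2) * Nat.log 2 (2 * (n + m) + 2)))).ncard * (n + m + 1) ^ c ≤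
      s ^ (n + m) := by
  obtain ⟨A, hA⟩ := C_card
  refine ⟨A, fun s hs n m c => ?_⟩
  obtain ⟨N, hN⟩ : ∃ N, N = n + m + 1 := ⟨_, rfl⟩
  obtain ⟨k, hk⟩ : ∃ k, k = (c + 2) * Nat.log 2 (2 * (n + m) + 2) := ⟨_, rfl⟩
  have h1 : Nat.log 2 (2 * (n + m) + 2) = Nat.log 2 N + 1 := by
    have h2 : 2 * (n + m) + 2 = N * 2 := by omega
    rw [h2, Nat.log_mul_base (by norm_num) (by omega)]
  have h3 : N ≤ 2 ^ (Nat.log 2 N + 1) := (Nat.lt_pow_succ_log_self (by norm_num) N).le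
  have h4 : N ^ (c + 2) ≤ 2 ^ k := by
    calc N ^ (c + 2) ≤ (2 ^ (Nat.log 2 N + 1)) ^ (c + 2) := Nat.pow_le_pow_left h3 _
      _ = 2 ^ k := by
          rw [← pow_mul, hk, h1, mul_comm (Nat.log 2 N + 1)]
  have h5 := Bad_card (P := 2 ^ k) (K := A * k) (s := s) (fun L => hA s hs k L) n m
  have h6 : (n + 1) * (m + 1) ≤ N ^ 2 := by
    rw [pow_two]
    exact Nat.mul_le_mul (by omega) (by omega)
  rw [← hN, ← hk]
  have h8 : N ^ 2 * ((Bad s n m (A * k)).ncard * N ^ c) ≤ N ^ 2 * s ^ (n + m) := by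
    calc N ^ 2 * ((Bad s n m (A * k)).ncard * N ^ c) =
          N ^ (c + 2) * (Bad s n m (A * k)).ncard := by ring
      _ ≤ 2 ^ k * (Bad s n m (A * k)).ncard := Nat.mul_le_mul_right _ h4
      _ ≤ (n + 1) * (m + 1) * s ^ (n + m) := h5
      _ ≤ N ^ 2 * s ^ (n + m) := Nat.mul_le_mul_right _ h6
  exact Nat.le_of_mul_le_mul_left h8 (by rw [hN]; positivity)

end Pool.Agent.SQ
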